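import Pool.Agent.UltPos.Defs

/-! Positivity. -/

set_option autoImplicit false

namespace Pool.Agent.UltPos

/-- Positivity: all terms of the sequence are positive. -/
def Inst.Positive (I : Inst) : Prop := ∀ v : ℕ → ℚ, I.IsSeq v → ∀ n, 0 < v n

end Pool.Agent.UltPos
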