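import Pool.Agent.UltPos.Valid

/-! The codes of instances: injectivity, validity, and the parser. -/

set_option autoImplicit false

namespace Pool.Agent.UltPos

open Pool.Agent.PT ISym

theorem count_encNat (a : ISym) (h0 : a ≠ b0) (h1 : a ≠ b1) (n : ℕ) : (encNat n).count a = 0 := by
  rw [List.count_eq_zero]
  intro h
  unfold encNat at h
  rw [List.mem_map] at h
  obtain ⟨b, _, hb⟩ := h
  cases b
  · exact h0 (by simpa using hb.symm)
  · exact h1 (by simpa using hb.symm)

/-- The code of an integer. -/
def encInt (z : ℤ) : List ISym := (if z < 0 then [ISym.neg] else []) ++ encNat z.natAbs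

theorem count_encInt (a : ISym) (h0 : a ≠ b0) (h1 : a ≠ b1) (h2 : a ≠ neg) (z : ℤ) :
    (encInt z).count a = 0 := by
  unfold encInt
  rw [List.count_append, count_encNat a h0 h1, add_zero]
  split_ifs
  · rw [List.count_singleton]
    simp [Ne.symm h2]
  · simp

theorem encFrac_eq (z : ℤ) (d : ℕ) : encFrac z d = encInt z ++ slash :: (encNat d ++ [semi]) := by
  unfold encFrac encInt
  simp

theorem encFrac_eq' (z : ℤ) (d : ℕ) : encFrac z d = (encInt z ++ slash :: encNat d) ++ [semi] := by
  rw [encFrac_eq]; simp

theorem encFracs_cons (q : ℤ × ℕ) (L : List (ℤ × ℕ)) :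
    encFracs (q :: L) = encFrac q.1 q.2 ++ encFracs L := by
  unfold encFracs; simp

theorem encFracs_append (L L' : List (ℤ × ℕ)) :
    encFracs (L ++ L') = encFracs L ++ encFracs L' := by
  unfold encFracs; simp

theorem encFracs_nil : encFracs [] = [] := rfl

theorem count_semi_encFrac (z : ℤ) (d : ℕ) : (encFrac z d).count semi = 1 := by
  rw [encFrac_eq, List.count_append, count_encInt _ (by decide) (by decide) (by decide),
    List.count_cons, List.count_append, count_encNat _ (by decide) (by decide)]
  decide

theorem count_slash_encFrac (z : ℤ) (d : ℕ) : (encFrac z d).count slash = 1 := by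
  rw [encFrac_eq, List.count_append, count_encInt _ (by decide) (by decide) (by decide),
    List.count_cons, List.count_append, count_encNat _ (by decide) (by decide)]
  decide

theorem count_bar_encFrac (z : ℤ) (d : ℕ) : (encFrac z d).count bar = 0 := by
  rw [encFrac_eq, List.count_append, count_encInt _ (by decide) (by decide) (by decide),
    List.count_cons, List.count_append, count_encNat _ (by decide) (by decide)]
  decide

theorem count_semi (L : List (ℤ × ℕ)) : (encFracs L).count semi = L.length := by
  induction L with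
  | nil => rfl
  | cons q L ih => rw [encFracs_cons, List.count_append, ih, count_semi_encFrac]; simp; omega

theorem count_slash (L : List (ℤ × ℕ)) : (encFracs L).count slash = L.length := by
  induction L with
  | nil => rfl
  | cons q L ih => rw [encFracs_cons, List.count_append, ih, count_slash_encFrac]; simp; omega

theorem count_bar (L : List (ℤ × ℕ)) : (encFracs L).count bar = 0 := by
  induction L with
  | nil => rfl
  | cons q L ih => rw [encFracs_cons, List.count_append, ih, count_bar_encFrac]

theorem bar_notMem (L : List (ℤ × ℕ)) : bar ∉ encFracs L := List.count_eq_zero.mp (count_bar L)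

/-- The list of the coefficients. -/
def Inst.aL (I : Inst) : List (ℤ × ℕ) := List.ofFn fun i => (I.aNum i, I.aDen i)

/-- The list of the initial values. -/
def Inst.uL (I : Inst) : List (ℤ × ℕ) := List.ofFn fun i => (I.uNum i, I.uDen i)

theorem Inst.enc_eq (I : Inst) : I.enc = encFracs I.aL ++ bar :: encFracs I.uL := by
  unfold Inst.enc encFracs Inst.aL Inst.uL
  simp [List.map_ofFn, Function.comp_def]

theorem Inst.length_aL (I : Inst) : I.aL.length = I.k := by simp [Inst.aL]
theorem Inst.length_uL (I : Inst) : I.uL.length = I.k := by simp [Inst.uL]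

theorem valid_iff (x : List ISym) : (∃ I : Inst, x = I.enc) ↔
    ∃ b, b < x.length ∧ (x[b]? = some bar ∧ IsFracs (sub x 0 b) ∧ IsFracs (sub x (b + 1) x.length) ∧
      0 < (sub x 0 b).count semi ∧ (sub x 0 b).count semi = (sub x (b + 1) x.length).count semi) := by
  constructor
  · rintro ⟨I, rfl⟩
    rw [I.enc_eq]
    have h1 : sub (encFracs I.aL ++ bar :: encFracs I.uL) 0 (encFracs I.aL).length =
        encFracs I.aL := sub_zero_append _ _ _ rfl
    have h2 : sub (encFracs I.aL ++ bar :: encFracs I.uL) ((encFracs I.aL).length + 1)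
        (encFracs I.aL ++ bar :: encFracs I.uL).length = encFracs I.uL := by
      have := sub_append (encFracs I.aL ++ [bar]) (encFracs I.uL) []
        ((encFracs I.aL).length + 1) (encFracs I.aL ++ bar :: encFracs I.uL).length (by simp)
        (by simp; omega)
      simpa using this
    refine ⟨(encFracs I.aL).length, by simp, by simp, ?_⟩
    rw [h1, h2, count_semi, count_semi, I.length_aL, I.length_uL]
    refine ⟨⟨I.aL, ?_, rfl⟩, ⟨I.uL, ?_, rfl⟩, I.kpos, rfl⟩
    · intro q hq
      unfold Inst.aL at hq
      rw [List.mem_ofFn] at hq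
      obtain ⟨i, rfl⟩ := hq
      exact I.aDen_pos i
    · intro q hq
      unfold Inst.uL at hq
      rw [List.mem_ofFn] at hq
      obtain ⟨i, rfl⟩ := hq
      exact I.uDen_pos i
  · rintro ⟨b, hb, h1, ⟨L, hL, h2⟩, ⟨L', hL', h3⟩, h4, h5⟩
    have h6 := split_at x b bar h1
    rw [h2, h3, count_semi] at h5
    rw [count_semi] at h5
    rw [h2, count_semi] at h4
    rw [h2, h3] at h6
    refine ⟨⟨L.length, h4, fun i => L[i].1, fun i => L[i].2, fun i => hL _ (List.getElem_mem _),
      fun i => (L'[i.1]'(by have := i.2; omega)).1, fun i => (L'[i.1]'(by have := i.2; omega)).2,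
      fun i => hL' _ (List.getElem_mem _)⟩, ?_⟩
    rw [Inst.enc_eq, h6]
    congr 2
    · unfold Inst.aL
      simp
    · congr 1
      unfold Inst.uL
      apply List.ext_getElem
      · simp [h5]
      · intro n hn1 hn2
        simp

/-- The set of codes is a UP predicate. -/
theorem up_valid : UP (fun (x : List ISym) _ => ∃ I : Inst, x = I.enc) := by
  have e0 := UF.var (Γ := ISym) 0
  have e1 := e0.add (UF.const 1)
  have c0 : UF (fun (x : List ISym) (_ : ℕ → ℕ) => 0) := UF.const 0
  have h1 : UP (fun (x : List ISym) (e : ℕ → ℕ) => x[e 0]? = some bar ∧ IsFracs (sub x 0 (e 0)) ∧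
      IsFracs (sub x (e 0 + 1) x.length) ∧
      0 < (sub x 0 (e 0)).count semi ∧
      (sub x 0 (e 0)).count semi = (sub x (e 0 + 1) x.length).count semi) :=
    (UP.sym bar e0).and ((UP.rel up_isFracs c0 e0).and ((UP.rel up_isFracs e1 UF.len).and
      ((UP.lt c0 (UF.rel (UF.count semi) c0 e0)).and
        (UP.eq (UF.rel (UF.count semi) c0 e0) (UF.rel (UF.count semi) e1 UF.len)))))
  refine (UP.bex (P := fun x _ b => x[b]? = some bar ∧ IsFracs (sub x 0 b) ∧
      IsFracs (sub x (b + 1) x.length) ∧
      0 < (sub x 0 b).count semi ∧ (sub x 0 b).count semi = (sub x (b + 1) x.length).count semi)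
      UF.len h1).congr fun x _ => ?_
  exact (valid_iff x).symm

/-! ### Injectivity -/

theorem bits_injective {n m : ℕ} (h : n.bits = m.bits) : n = m := by
  have h1 := Nat.eq_of_testBit_eq (x := n) (y := m)
  apply h1
  intro i
  rw [Nat.testBit_eq_inth, Nat.testBit_eq_inth, h]

theorem encNat_injective {n m : ℕ} (h : encNat n = encNat m) : n = m := by
  apply bits_injective
  unfold encNat at h
  refine List.map_injective_iff.mpr ?_ h
  intro a b hab
  cases a <;> cases b <;> simp_all

theorem neg_notMem_encNat (n : ℕ) : neg ∉ encNat n :=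
  List.count_eq_zero.mp (count_encNat neg (by decide) (by decide) n)

theorem encInt_injective {z z' : ℤ} (h : encInt z = encInt z') : z = z' := by
  unfold encInt at h
  by_cases h1 : z < 0 <;> by_cases h2 : z' < 0
  · rw [if_pos h1, if_pos h2, List.append_cancel_left_eq] at h
    have := encNat_injective h
    omega
  · rw [if_pos h1, if_neg h2] at h
    exfalso
    apply neg_notMem_encNat z'.natAbs
    rw [List.nil_append] at h
    rw [← h]; simp
  · rw [if_neg h1, if_pos h2] at h
    exfalso
    apply neg_notMem_encNat z.natAbs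
    rw [List.nil_append] at h
    rw [h]; simp
  · rw [if_neg h1, if_neg h2] at h
    have := encNat_injective (by simpa using h)
    omega

theorem encFrac_injective {z z' : ℤ} {d d' : ℕ} {r r' : List ISym}
    (h : encFrac z d ++ r = encFrac z' d' ++ r') : z = z' ∧ d = d' ∧ r = r' := by
  rw [encFrac_eq, encFrac_eq, List.append_assoc, List.append_assoc, List.cons_append,
    List.cons_append] at h
  have hs : ∀ z : ℤ, slash ∉ encInt z := fun z =>
    List.count_eq_zero.mp (count_encInt slash (by decide) (by decide) (by decide) z)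
  have hs' : ∀ n : ℕ, semi ∉ encNat n := fun n =>
    List.count_eq_zero.mp (count_encNat semi (by decide) (by decide) n)
  obtain ⟨h1, h2⟩ := append_cons_inj slash _ _ _ _ (hs z) (hs z') h
  rw [List.append_assoc, List.append_assoc] at h2
  obtain ⟨h3, h4⟩ := append_cons_inj semi _ _ _ _ (hs' d) (hs' d') h2
  exact ⟨encInt_injective h1, encNat_injective h3, h4⟩

theorem encFracs_injective : ∀ {L L' : List (ℤ × ℕ)}, encFracs L = encFracs L' → L = L'
  | [], [], _ => rfl
  | [], q :: L', h => by
    exfalso
    have := congrArg (List.count semi) h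
    rw [count_semi, count_semi] at this
    simp at this
  | q :: L, [], h => by
    exfalso
    have := congrArg (List.count semi) h
    rw [count_semi, count_semi] at this
    simp at this
  | q :: L, q' :: L', h => by
    rw [encFracs_cons, encFracs_cons] at h
    obtain ⟨h1, h2, h3⟩ := encFrac_injective h
    rw [encFracs_injective h3, Prod.ext h1 h2]

theorem enc_injective : Function.Injective Inst.enc := by
  intro I J h
  rw [I.enc_eq, J.enc_eq] at h
  obtain ⟨h1, h2⟩ := append_cons_inj bar _ _ _ _ (bar_notMem _) (bar_notMem _) h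
  have h3 := encFracs_injective h1
  have h4 := encFracs_injective h2
  have hk : I.k = J.k := by rw [← I.length_aL, ← J.length_aL, h3]
  obtain ⟨k, kpos, aN, aD, aDp, uN, uD, uDp⟩ := I
  obtain ⟨k', kpos', aN', aD', aDp', uN', uD', uDp'⟩ := J
  simp only at hk
  subst hk
  unfold Inst.aL at h3
  unfold Inst.uL at h4
  simp only [List.ofFn_inj] at h3 h4
  have e1 : aN = aN' := funext fun i => (Prod.ext_iff.mp (congrFun h3 i)).1
  have e2 : aD = aD' := funext fun i => (Prod.ext_iff.mp (congrFun h3 i)).2
  have e3 : uN = uN' := funext fun i => (Prod.ext_iff.mp (congrFun h4 i)).1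
  have e4 : uD = uD' := funext fun i => (Prod.ext_iff.mp (congrFun h4 i)).2
  subst e1; subst e2; subst e3; subst e4
  rfl

/-! ### The parser -/

/-- The order. -/
def kk (x : List ISym) : ℕ := (sub x 0 (posn bar 0 x)).count semi

/-- The number of the field. -/
def fld (x : List ISym) (f i : ℕ) : ℕ := f * kk x + i

/-- The first position of the field. -/
def st (x : List ISym) (f i : ℕ) : ℕ :=
  if i = 0 then (if f = 0 then 0 else posn bar 0 x + 1) else posn semi (fld x f i - 1) x + 1

/-- The position of the slash of the field. -/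
def sl (x : List ISym) (f i : ℕ) : ℕ := posn slash (fld x f i) x

/-- The last position of the field. -/
def en (x : List ISym) (f i : ℕ) : ℕ := posn semi (fld x f i) x

/-- The sign of the field. -/
def sg (x : List ISym) (f i : ℕ) : ℕ := if x[st x f i]? = some neg then 1 else 0

/-- The digits of the numerator. -/
def nb (x : List ISym) (f i l : ℕ) : ℕ :=
  if st x f i + sg x f i + l < sl x f i ∧ x[st x f i + sg x f i + l]? = some b1 then 1 else 0

/-- The digits of the denominator. -/
def db (x : List ISym) (f i l : ℕ) : ℕ :=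
  if sl x f i + 1 + l < en x f i ∧ x[sl x f i + 1 + l]? = some b1 then 1 else 0

theorem uf_kk : UF (fun (x : List ISym) _ => kk x) := by
  have hp : UF (fun (x : List ISym) (_ : ℕ → ℕ) => posn bar 0 x) :=
    UF.comp₁ (f := fun x t => posn bar t x) (UF.posn bar) (UF.const 0)
  exact UF.rel (UF.count semi) (UF.const 0) hp

theorem uf_fld : UF (fun (x : List ISym) e => fld x (e 0) (e 1)) :=
  ((UF.var 0).mul uf_kk).add (UF.var 1)

theorem uf_st : UF (fun (x : List ISym) e => st x (e 0) (e 1)) := by
  have hp : UF (fun (x : List ISym) (_ : ℕ → ℕ) => posn bar 0 x) :=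
    UF.comp₁ (f := fun x t => posn bar t x) (UF.posn bar) (UF.const 0)
  have hq : UF (fun (x : List ISym) e => posn semi (fld x (e 0) (e 1) - 1) x) :=
    UF.comp₁ (f := fun x t => posn semi t x) (UF.posn semi) (uf_fld.sub (UF.const 1))
  exact UF.ite (inst := fun _ _ => _) (UP.eq (UF.var 1) (UF.const 0))
    (UF.ite (inst := fun _ _ => _) (UP.eq (UF.var 0) (UF.const 0)) (UF.const 0)
      (hp.add (UF.const 1))) (hq.add (UF.const 1))

theorem uf_sl : UF (fun (x : List ISym) e => sl x (e 0) (e 1)) :=
  UF.comp₁ (f := fun x t => posn slash t x) (UF.posn slash) uf_fld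

theorem uf_en : UF (fun (x : List ISym) e => en x (e 0) (e 1)) :=
  UF.comp₁ (f := fun x t => posn semi t x) (UF.posn semi) uf_fld

theorem uf_sg : UF (fun (x : List ISym) e => sg x (e 0) (e 1)) :=
  UF.ite (inst := fun _ _ => _) (UP.sym neg uf_st) (UF.const 1) (UF.const 0)

theorem uf_nb : UF (fun (x : List ISym) e => nb x (e 0) (e 1) (e 2)) := by
  have h := (uf_st.add uf_sg).add (UF.var 2)
  exact UF.ite (inst := fun _ _ => _) ((UP.lt h uf_sl).and (UP.sym b1 h)) (UF.const 1) (UF.const 0)

theorem uf_db : UF (fun (x : List ISym) e => db x (e 0) (e 1) (e 2)) := by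
  have h := (uf_sl.add (UF.const 1)).add (UF.var 2)
  exact UF.ite (inst := fun _ _ => _) ((UP.lt h uf_en).and (UP.sym b1 h)) (UF.const 1) (UF.const 0)

theorem mul_sum_aux (N : ℕ) (f : ℕ → ℕ) :
    (∑ l ∈ Finset.range N, f l * 2 ^ l) * 2 = ∑ l ∈ Finset.range N, f l * (2 ^ l * 2) := by
  rw [Finset.sum_mul]
  exact Finset.sum_congr rfl fun l _ => by ring

theorem sum_encNat (n : ℕ) : ∀ N, (encNat n).length ≤ N →
    ∑ l ∈ Finset.range N, (if (encNat n)[l]? = some b1 then 1 else 0) * 2 ^ l = n := by
  induction n using Nat.strong_induction_on with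
  | _ n ih =>
    intro N hN
    rcases Nat.eq_zero_or_pos n with rfl | hn
    · rw [encNat_zero]; simp
    rcases Nat.even_or_odd' n with ⟨m, h | h⟩
    · have hm : m ≠ 0 := by omega
      have he : encNat n = b0 :: encNat m := by
        unfold encNat; rw [h, Nat.bit0_bits m hm]; simp
      rw [he] at hN ⊢
      obtain ⟨N', rfl⟩ : ∃ N', N = N' + 1 := ⟨N - 1, by simp at hN; omega⟩
      rw [Finset.sum_range_succ']
      have := ih m (by omega) N' (by simp at hN; omega)
      simp only [List.getElem?_cons_succ, pow_succ, List.getElem?_cons_zero]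
      rw [← mul_sum_aux, this, h]
      simp [mul_comm]
    · have he : encNat n = b1 :: encNat m := by
        unfold encNat; rw [h, Nat.bit1_bits m]; simp
      rw [he] at hN ⊢
      obtain ⟨N', rfl⟩ : ∃ N', N = N' + 1 := ⟨N - 1, by simp at hN; omega⟩
      rw [Finset.sum_range_succ']
      have := ih m (by omega) N' (by simp at hN; omega)
      simp only [List.getElem?_cons_succ, pow_succ, List.getElem?_cons_zero]
      rw [← mul_sum_aux, this, h]
      simp [mul_comm]

theorem lt_two_pow_of_length (n N : ℕ) (h : (encNat n).length ≤ N) : n < 2 ^ N := by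
  have h1 := Nat.lt_size_self n
  rw [← Nat.size_eq_bits_len] at h1
  have h2 : (encNat n).length = n.bits.length := by simp [encNat]
  exact h1.trans_le (Nat.pow_le_pow_right (by norm_num) (by omega))

theorem length_encInt (z : ℤ) :
    (encInt z).length = (if z < 0 then 1 else 0) + (encNat z.natAbs).length := by
  unfold encInt
  split_ifs <;> simp [Nat.add_comm]

theorem getElem?_mid {Γ : Type} (A B C : List Γ) (l : ℕ) (h : l < B.length) :
    (A ++ (B ++ C))[A.length + l]? = B[l]? := by
  rw [List.getElem?_append_right (by omega), Nat.add_sub_cancel_left,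
    List.getElem?_append_left h]

theorem field_spec (x P S : List ISym) (z : ℤ) (d f i : ℕ) (hx : x = P ++ (encFrac z d ++ S))
    (hst : st x f i = P.length) (hc1 : P.count semi = fld x f i)
    (hc2 : P.count slash = fld x f i) :
    z = (if sg x f i = 1 then -1 else 1) *
      ∑ l ∈ Finset.range x.length, (nb x f i l : ℤ) * 2 ^ l ∧
    (d : ℤ) = ∑ l ∈ Finset.range x.length, (db x f i l : ℤ) * 2 ^ l ∧
    z.natAbs < 2 ^ x.length ∧ d < 2 ^ x.length := by
  have hlen : x.length = P.length + ((encInt z).length + 1 + (encNat d).length + 1) + S.length := by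
    rw [hx, encFrac_eq]; simp; omega
  have hzl := length_encInt z
  have hsl : sl x f i = P.length + (encInt z).length := by
    have h1 : x = (P ++ encInt z) ++ slash :: (encNat d ++ semi :: S) := by
      rw [hx, encFrac_eq]; simp
    unfold sl
    have h2 := posn_eq slash (P ++ encInt z) (encNat d ++ semi :: S) (fld x f i) (by
      rw [List.count_append, hc2, count_encInt _ (by decide) (by decide) (by decide)]; rfl)
    rw [← h1] at h2
    rw [h2]; simp
  have hen : en x f i = P.length + (encInt z).length + 1 + (encNat d).length := by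
    have h1 : x = (P ++ (encInt z ++ slash :: encNat d)) ++ semi :: S := by
      rw [hx, encFrac_eq]; simp
    unfold en
    have h2 := posn_eq semi (P ++ (encInt z ++ slash :: encNat d)) S (fld x f i) (by
      rw [List.count_append, hc1, List.count_append, List.count_cons,
        count_encInt _ (by decide) (by decide) (by decide), count_encNat _ (by decide) (by decide)]
      simp)
    rw [← h1] at h2
    rw [h2]; simp; omega
  have hsg : sg x f i = if z < 0 then 1 else 0 := by
    unfold sg
    rw [hst]
    by_cases hz : z < 0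
    · rw [if_pos hz, if_pos]
      have h1 : x = P ++ ([neg] ++ (encNat z.natAbs ++ slash :: (encNat d ++ [semi]) ++ S)) := by
        rw [hx, encFrac_eq, encInt, if_pos hz]; simp
      have h2 := getElem?_mid P [neg] (encNat z.natAbs ++ slash :: (encNat d ++ [semi]) ++ S) 0
        (by simp)
      rw [← h1] at h2
      simpa using h2
    · rw [if_neg hz, if_neg]
      intro h
      have h1 : x = P ++ ((encNat z.natAbs ++ [slash]) ++ (encNat d ++ [semi] ++ S)) := by
        rw [hx, encFrac_eq, encInt, if_neg hz]; simp
      have h2 := getElem?_mid P (encNat z.natAbs ++ [slash]) (encNat d ++ [semi] ++ S) 0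
        (by simp)
      rw [← h1, add_zero, h] at h2
      have h3 := List.mem_of_getElem? h2.symm
      rw [List.mem_append] at h3
      rcases h3 with h3 | h3
      · exact neg_notMem_encNat _ h3
      · simp at h3
  have hnb : ∀ l, nb x f i l = if (encNat z.natAbs)[l]? = some b1 then 1 else 0 := by
    intro l
    unfold nb
    rw [hst, hsg, hsl, hzl]
    by_cases hl : l < (encNat z.natAbs).length
    · have h1 : x = (P ++ (if z < 0 then [neg] else [])) ++ (encNat z.natAbs ++
          (slash :: (encNat d ++ [semi]) ++ S)) := by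
        rw [hx, encFrac_eq, encInt]; simp
      have h2 := getElem?_mid (P ++ (if z < 0 then [neg] else [])) (encNat z.natAbs)
        (slash :: (encNat d ++ [semi]) ++ S) l hl
      rw [← h1] at h2
      have h3 : (P ++ (if z < 0 then [neg] else [])).length =
          P.length + (if z < 0 then 1 else 0) := by
        rw [List.length_append]; split_ifs <;> simp
      rw [h3] at h2
      rw [h2]
      have h4 : P.length + (if z < 0 then 1 else 0) + l <
          P.length + ((if z < 0 then 1 else 0) + (encNat z.natAbs).length) := by omega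
      simp only [h4, true_and]
    · have h4 : ¬ P.length + (if z < 0 then 1 else 0) + l <
          P.length + ((if z < 0 then 1 else 0) + (encNat z.natAbs).length) := by omega
      simp only [h4, false_and, if_false]
      rw [List.getElem?_eq_none (by omega)]
      simp
  have hdb : ∀ l, db x f i l = if (encNat d)[l]? = some b1 then 1 else 0 := by
    intro l
    unfold db
    rw [hen, hsl]
    by_cases hl : l < (encNat d).length
    · have h1 : x = (P ++ encInt z ++ [slash]) ++ (encNat d ++ ([semi] ++ S)) := by
        rw [hx, encFrac_eq]; simp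
      have h2 := getElem?_mid (P ++ encInt z ++ [slash]) (encNat d) ([semi] ++ S) l hl
      rw [← h1] at h2
      have h3 : (P ++ encInt z ++ [slash]).length = P.length + (encInt z).length + 1 := by
        simp; omega
      rw [h3] at h2
      rw [h2]
      have h4 : P.length + (encInt z).length + 1 + l <
          P.length + (encInt z).length + 1 + (encNat d).length := by omega
      simp only [h4, true_and]
    · have h4 : ¬ P.length + (encInt z).length + 1 + l <
          P.length + (encInt z).length + 1 + (encNat d).length := by omega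
      simp only [h4, false_and, if_false]
      rw [List.getElem?_eq_none (by omega)]
      simp
  have s1 := sum_encNat z.natAbs x.length (by omega)
  have s2 := sum_encNat d x.length (by omega)
  refine ⟨?_, ?_, lt_two_pow_of_length _ _ (by omega), lt_two_pow_of_length _ _ (by omega)⟩
  · have h1 : ∑ l ∈ Finset.range x.length, (nb x f i l : ℤ) * 2 ^ l = z.natAbs := by
      rw [← s1]
      push_cast
      refine Finset.sum_congr rfl fun l _ => ?_
      rw [hnb l]
      push_cast
      rfl
    rw [h1, hsg]
    by_cases hz : z < 0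
    · rw [if_pos hz, if_pos rfl]; omega
    · rw [if_neg hz, if_neg (by norm_num)]; omega
  · rw [← s2]
    push_cast
    refine Finset.sum_congr rfl fun l _ => ?_
    rw [hdb l]
    push_cast
    rfl

theorem encFracs_take_succ (L : List (ℤ × ℕ)) (j : ℕ) (hj : j < L.length) :
    encFracs (L.take (j + 1)) =
      (encFracs (L.take j) ++ (encInt L[j].1 ++ slash :: encNat L[j].2)) ++ [semi] := by
  rw [List.take_add_one, List.getElem?_eq_getElem hj, encFracs_append]
  simp only [Option.toList_some]
  rw [encFracs_cons, encFracs_nil, encFrac_eq']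
  simp

theorem encFracs_split (L : List (ℤ × ℕ)) (j : ℕ) (hj : j < L.length) :
    encFracs L = encFracs (L.take j) ++ (encFrac L[j].1 L[j].2 ++ encFracs (L.drop (j + 1))) := by
  conv_lhs => rw [← List.take_append_drop j L, ← List.getElem_cons_drop hj]
  rw [encFracs_append, encFracs_cons]

theorem kk_eq (LA LU : List (ℤ × ℕ)) : kk (encFracs LA ++ bar :: encFracs LU) = LA.length := by
  unfold kk
  rw [posn_eq bar (encFracs LA) (encFracs LU) 0 (count_bar LA), sub_zero_append _ _ _ rfl,
    count_semi]

theorem field0 (LA LU : List (ℤ × ℕ)) (x : List ISym) (hx : x = encFracs LA ++ bar :: encFracs LU)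
    (i : ℕ) (hi : i < LA.length) :
    LA[i].1 = (if sg x 0 i = 1 then -1 else 1) *
      ∑ l ∈ Finset.range x.length, (nb x 0 i l : ℤ) * 2 ^ l ∧
    (LA[i].2 : ℤ) = ∑ l ∈ Finset.range x.length, (db x 0 i l : ℤ) * 2 ^ l ∧
    LA[i].1.natAbs < 2 ^ x.length ∧ LA[i].2 < 2 ^ x.length := by
  have hk : kk x = LA.length := by rw [hx]; exact kk_eq LA LU
  have hf : fld x 0 i = i := by unfold fld; omega
  refine field_spec x (encFracs (LA.take i)) (encFracs (LA.drop (i + 1)) ++ bar :: encFracs LU)
    LA[i].1 LA[i].2 0 i ?_ ?_ ?_ ?_
  · rw [hx]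
    conv_lhs => rw [encFracs_split LA i hi]
    simp
  · unfold st
    rw [hf]
    by_cases h0 : i = 0
    · subst h0
      simp [encFracs_nil]
    · rw [if_neg h0]
      obtain ⟨j, rfl⟩ : ∃ j, i = j + 1 := ⟨i - 1, by omega⟩
      rw [Nat.add_sub_cancel]
      have h1 : x = (encFracs (LA.take j) ++ (encInt LA[j].1 ++ slash :: encNat LA[j].2)) ++
          semi :: (encFracs (LA.drop (j + 1)) ++ bar :: encFracs LU) := by
        refine hx.trans ?_
        conv_lhs => rw [encFracs_split LA j (by omega), encFrac_eq]
        simp
      have h2 := posn_eq semi (encFracs (LA.take j) ++ (encInt LA[j].1 ++ slash :: encNat LA[j].2))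
        (encFracs (LA.drop (j + 1)) ++ bar :: encFracs LU) j (by
          rw [List.count_append, count_semi, List.count_append, List.count_cons,
            count_encInt _ (by decide) (by decide) (by decide),
            count_encNat _ (by decide) (by decide), List.length_take]
          simp; omega)
      rw [← h1] at h2
      rw [h2, encFracs_take_succ LA j (by omega)]
      simp; omega
  · rw [count_semi, hf, List.length_take]; omega
  · rw [count_slash, hf, List.length_take]; omega

theorem field1 (LA LU : List (ℤ × ℕ)) (x : List ISym) (hx : x = encFracs LA ++ bar :: encFracs LU)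
    (i : ℕ) (hi : i < LU.length) :
    LU[i].1 = (if sg x 1 i = 1 then -1 else 1) *
      ∑ l ∈ Finset.range x.length, (nb x 1 i l : ℤ) * 2 ^ l ∧
    (LU[i].2 : ℤ) = ∑ l ∈ Finset.range x.length, (db x 1 i l : ℤ) * 2 ^ l ∧
    LU[i].1.natAbs < 2 ^ x.length ∧ LU[i].2 < 2 ^ x.length := by
  have hk : kk x = LA.length := by rw [hx]; exact kk_eq LA LU
  have hf : fld x 1 i = LA.length + i := by unfold fld; omega
  refine field_spec x (encFracs LA ++ bar :: encFracs (LU.take i)) (encFracs (LU.drop (i + 1)))
    LU[i].1 LU[i].2 1 i ?_ ?_ ?_ ?_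
  · rw [hx]
    conv_lhs => rw [encFracs_split LU i hi]
    simp
  · unfold st
    rw [hf]
    by_cases h0 : i = 0
    · subst h0
      rw [if_pos rfl, if_neg (by norm_num)]
      have := posn_eq bar (encFracs LA) (encFracs LU) 0 (count_bar LA)
      rw [hx, this]
      simp [encFracs_nil]
    · rw [if_neg h0]
      obtain ⟨j, rfl⟩ : ∃ j, i = j + 1 := ⟨i - 1, by omega⟩
      have hj : LA.length + (j + 1) - 1 = LA.length + j := by omega
      rw [hj]
      have h1 : x = (encFracs LA ++ bar :: (encFracs (LU.take j) ++
          (encInt LU[j].1 ++ slash :: encNat LU[j].2))) ++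
          semi :: (encFracs (LU.drop (j + 1))) := by
        refine hx.trans ?_
        conv_lhs => rw [encFracs_split LU j (by omega), encFrac_eq]
        simp
      have h2 := posn_eq semi (encFracs LA ++ bar :: (encFracs (LU.take j) ++
          (encInt LU[j].1 ++ slash :: encNat LU[j].2)))
        (encFracs (LU.drop (j + 1))) (LA.length + j) (by
          rw [List.count_append, count_semi, List.count_cons, List.count_append, count_semi,
            List.count_append, List.count_cons,
            count_encInt _ (by decide) (by decide) (by decide),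
            count_encNat _ (by decide) (by decide), List.length_take]
          simp; omega)
      rw [← h1] at h2
      rw [h2, encFracs_take_succ LU j (by omega)]
      simp; omega
  · rw [List.count_append, List.count_cons, count_semi, count_semi, hf, List.length_take]
    simp; omega
  · rw [List.count_append, List.count_cons, count_slash, count_slash, hf, List.length_take]
    simp; omega

/-- Parser: natural numbers read off the word by UF terms: order, and for each field the sign, the
digits of numerator and denominator.  `f = 0` : coefficients, `f = 1` : initial values. -/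
theorem exists_parser : ∃ (kk : List ISym → ℕ) (sg : List ISym → ℕ → ℕ → ℕ)
    (nb db : List ISym → ℕ → ℕ → ℕ → ℕ),
    UF (fun x _ => kk x) ∧ UF (fun x e => sg x (e 0) (e 1)) ∧
    UF (fun x e => nb x (e 0) (e 1) (e 2)) ∧ UF (fun x e => db x (e 0) (e 1) (e 2)) ∧
    ∀ I : Inst, kk I.enc = I.k ∧ I.k ≤ I.enc.length ∧
      (∀ i : Fin I.k, I.aNum i = (if sg I.enc 0 i = 1 then -1 else 1) *
        ∑ l ∈ Finset.range I.enc.length, (nb I.enc 0 i l : ℤ) * 2 ^ l) ∧
      (∀ i : Fin I.k, (I.aDen i : ℤ) = ∑ l ∈ Finset.range I.enc.length, (db I.enc 0 i l : ℤ) * 2 ^ l) ∧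
      (∀ i : Fin I.k, I.uNum i = (if sg I.enc 1 i = 1 then -1 else 1) *
        ∑ l ∈ Finset.range I.enc.length, (nb I.enc 1 i l : ℤ) * 2 ^ l) ∧
      (∀ i : Fin I.k, (I.uDen i : ℤ) = ∑ l ∈ Finset.range I.enc.length, (db I.enc 1 i l : ℤ) * 2 ^ l) ∧
      (∀ i : Fin I.k, (I.aNum i).natAbs < 2 ^ I.enc.length ∧ I.aDen i < 2 ^ I.enc.length ∧
        (I.uNum i).natAbs < 2 ^ I.enc.length ∧ I.uDen i < 2 ^ I.enc.length) := by
  refine ⟨kk, sg, nb, db, uf_kk, uf_sg, uf_nb, uf_db, fun I => ?_⟩
  have hx := I.enc_eq
  have hA : ∀ i : Fin I.k, I.aL[(i : ℕ)]'(by rw [I.length_aL]; exact i.2) =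
      (I.aNum i, I.aDen i) := fun i => by simp [Inst.aL]
  have hU : ∀ i : Fin I.k, I.uL[(i : ℕ)]'(by rw [I.length_uL]; exact i.2) =
      (I.uNum i, I.uDen i) := fun i => by simp [Inst.uL]
  have f0 : ∀ i : Fin I.k, _ := fun i =>
    field0 I.aL I.uL I.enc hx i (by rw [I.length_aL]; exact i.2)
  have f1 : ∀ i : Fin I.k, _ := fun i =>
    field1 I.aL I.uL I.enc hx i (by rw [I.length_uL]; exact i.2)
  simp only [hA] at f0
  simp only [hU] at f1
  refine ⟨?_, ?_, fun i => (f0 i).1, fun i => (f0 i).2.1, fun i => (f1 i).1, fun i => (f1 i).2.1,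
    fun i => ⟨(f0 i).2.2.1, (f0 i).2.2.2, (f1 i).2.2.1, (f1 i).2.2.2⟩⟩
  · rw [hx, kk_eq, I.length_aL]
  · have h1 := count_semi I.aL
    rw [I.length_aL] at h1
    rw [← h1, hx]
    refine (List.count_le_length).trans ?_
    simp

end Pool.Agent.UltPos
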