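import Pool.Agent.UltPos.Defs

/-! Critical sequences. -/

set_option autoImplicit false

namespace Pool.Agent.UltPos

open Filter Topology

/-- A real sequence `v` is *critical* if along some arithmetic progression `Nm + J` it is of exact
order `ρ^m m^d` with `ρ > 0` and `d ≥ 1` (bounded by a multiple of it, and not negligible with
respect to it along any further progression), and `liminf v(Nm+J) / (ρ^m m^d) = 0`. -/
def IsCritical (v : ℕ → ℝ) : Prop :=
  ∃ (N J d : ℕ) (ρ : ℝ), 0 < N ∧ 0 < d ∧ 0 < ρ ∧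
    (∃ B : ℝ, ∀ m : ℕ, 0 < m → |v (N * m + J)| ≤ B * (ρ ^ m * m ^ d)) ∧
    (∀ N' J' : ℕ, 0 < N' → ¬ Tendsto (fun m : ℕ => v (N * (N' * m + J') + J) /
      (ρ ^ (N' * m + J') * ((N' * m + J' : ℕ) : ℝ) ^ d)) atTop (𝓝 0)) ∧
    liminf (fun m : ℕ => v (N * m + J) / (ρ ^ m * (m : ℝ) ^ d)) atTop = 0

/-- The sequence of the instance is critical. -/
def Inst.Critical (I : Inst) : Prop := ∃ v : ℕ → ℚ, I.IsSeq v ∧ IsCritical (fun n => (v n : ℝ))

end Pool.Agent.UltPos
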