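import Pool.Agent.UltPos.Narrow

/-! Instances with at most eight characteristic roots on each circle. -/

set_option autoImplicit false

namespace Pool.Agent.UltPos

/-- Each circle around `0` contains at most eight characteristic roots. -/
def Inst.EightPerCircle (I : Inst) : Prop :=
  ∀ r : ℝ, Set.encard {z : ℂ | z ∈ I.rootSet ∧ ‖z‖ = r} ≤ 8

end Pool.Agent.UltPos
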