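import Pool.Agent.UltPos.Defs

/-! Narrow sequences. -/

set_option autoImplicit false

namespace Pool.Agent.UltPos

open Filter Topology

/-- The contact values of `γ` along the residue class `J` modulo `N`: the limits of `γ^(Nm+J)`
along subsequences on which `v(Nm+J) / ρ^m` tends to `0`. -/
def contactSet (v : ℕ → ℝ) (N J : ℕ) (ρ : ℝ) (γ : ℂ) : Set ℂ :=
  {ζ | ∃ φ : ℕ → ℕ, StrictMono φ ∧ Tendsto (fun m => v (N * φ m + J) / ρ ^ φ m) atTop (𝓝 0) ∧
    Tendsto (fun m => γ ^ (N * φ m + J)) atTop (𝓝 ζ)}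

/-- A real sequence `v` is *narrow* with respect to a set `S` of complex numbers if for some modulus
`N`, along each residue class `Nm + J` there is `ρ > 0` such that `v(Nm+J) / ρ^m` is bounded and
either its liminf is not `0`, or there are `a`, `b` in `S` with `|a| = |b|` and `a/b` not a root of
unity such that the set of contact values of `a/b` is finite. -/
def IsNarrow (v : ℕ → ℝ) (S : Set ℂ) : Prop :=
  ∃ N : ℕ, 0 < N ∧ ∀ J : ℕ, J < N → ∃ ρ : ℝ, 0 < ρ ∧
    (∃ B : ℝ, ∀ m : ℕ, |v (N * m + J)| ≤ B * ρ ^ m) ∧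
    (liminf (fun m : ℕ => v (N * m + J) / ρ ^ m) atTop ≠ 0 ∨
      ∃ a ∈ S, ∃ b ∈ S, ‖a‖ = ‖b‖ ∧ (∀ n : ℕ, 0 < n → a ^ n ≠ b ^ n) ∧
        (contactSet v N J ρ (a / b)).Finite)

/-- The characteristic roots. -/
def Inst.rootSet (I : Inst) : Set ℂ := {z | Polynomial.aeval z I.charPoly = 0}

/-- The sequence of the instance is narrow with respect to the characteristic roots. -/
def Inst.Narrow (I : Inst) : Prop :=
  ∃ v : ℕ → ℚ, I.IsSeq v ∧ IsNarrow (fun n => (v n : ℝ)) I.rootSet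

end Pool.Agent.UltPos
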