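import Pool.Agent.UltPos.Defs

/-! The sequence of an instance exists and is unique. -/

set_option autoImplicit false

namespace Pool.Agent.UltPos

theorem Inst.exists_unique_seq (I : Inst) : ∃! v : ℕ → ℚ, I.IsSeq v := by
  classical
  let E : LinearRecurrence ℚ := ⟨I.k, fun j => I.a ⟨I.k - 1 - j, by have := I.kpos; omega⟩⟩
  have key : ∀ v : ℕ → ℚ, I.IsSeq v ↔ E.IsSolution v ∧ ∀ i : Fin I.k, v i = I.u i := by
    intro v
    unfold Inst.IsSeq LinearRecurrence.IsSolution
    rw [and_comm]
    refine and_congr ?_ Iff.rfl
    have hsum : ∀ n, I.k ≤ n → ∑ i : Fin I.k, I.a i * v (n - 1 - i) =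
        ∑ j : Fin I.k, I.a ⟨I.k - 1 - j, by have := I.kpos; omega⟩ * v (n - I.k + j) := by
      intro n hn
      rw [← Equiv.sum_comp Fin.revPerm]
      refine Finset.sum_congr rfl fun j _ => ?_
      have hj := j.2
      congr 1
      · congr 1
        ext
        simp [Fin.val_rev]
        omega
      · congr 1
        simp [Fin.val_rev]
        omega
    constructor
    · intro h n
      have := h (n + I.k) (by omega)
      rw [hsum _ (by omega)] at this
      simpa using this
    · intro h n hn
      rw [hsum n hn]
      have := h (n - I.k)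
      change v (n - I.k + I.k) = _ at this
      rw [Nat.sub_add_cancel hn] at this
      exact this
  refine ⟨E.mkSol I.u, (key _).mpr ⟨E.is_sol_mkSol _, fun i => E.mkSol_eq_init _ i⟩, ?_⟩
  intro v hv
  obtain ⟨h1, h2⟩ := (key v).mp hv
  have := E.eq_mk_of_is_sol_of_eq_init h1 (init := I.u) (fun i => h2 i)
  funext n
  exact this n

end Pool.Agent.UltPos
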