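import Mathlib

/-! Instances of Ultimate Positivity, their codes, and the sequences they define. -/

set_option autoImplicit false

namespace Pool.Agent.UltPos

open Polynomial

/-- Letters of the input alphabet. -/
inductive ISym
  | b0 | b1 | neg | slash | semi | bar
  deriving DecidableEq

instance : Fintype ISym := ⟨{.b0, .b1, .neg, .slash, .semi, .bar}, by
  intro x; cases x <;> simp⟩

/-- An instance: the order `k ≥ 1`, the coefficients `a₁, …, a_k` and the initial values
`u₀, …, u_{k-1}`, given as fractions of integers with positive denominators. -/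
structure Inst where
  k : ℕ
  kpos : 0 < k
  aNum : Fin k → ℤ
  aDen : Fin k → ℕ
  aDen_pos : ∀ i, 0 < aDen i
  uNum : Fin k → ℤ
  uDen : Fin k → ℕ
  uDen_pos : ∀ i, 0 < uDen i

/-- The coefficient `a_{i+1}`. -/
def Inst.a (I : Inst) (i : Fin I.k) : ℚ := I.aNum i / I.aDen i

/-- The initial value `u_i`. -/
def Inst.u (I : Inst) (i : Fin I.k) : ℚ := I.uNum i / I.uDen i

/-- `v` is the sequence of the instance: `v_i = u_i` for `i < k` and
`v_n = a₁ v_{n-1} + ⋯ + a_k v_{n-k}` for `n ≥ k`. -/
def Inst.IsSeq (I : Inst) (v : ℕ → ℚ) : Prop :=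
  (∀ i : Fin I.k, v i = I.u i) ∧ ∀ n, I.k ≤ n → v n = ∑ i : Fin I.k, I.a i * v (n - 1 - i)

/-- The characteristic polynomial `x^k - a₁ x^{k-1} - ⋯ - a_k`. -/
noncomputable def Inst.charPoly (I : Inst) : ℚ[X] :=
  X ^ I.k - ∑ i : Fin I.k, C (I.a i) * X ^ (I.k - 1 - (i : ℕ))

/-- The recurrence is simple: its characteristic polynomial has no repeated root in `ℂ`. -/
def Inst.Simple (I : Inst) : Prop := (I.charPoly.map (algebraMap ℚ ℂ)).roots.Nodup

/-- Ultimate positivity. -/
def Inst.UltimatelyPositive (I : Inst) : Prop :=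
  ∀ v : ℕ → ℚ, I.IsSeq v → ∃ N, ∀ n, N ≤ n → 0 < v n

/-- A natural number in binary, least significant digit first. -/
def encNat (n : ℕ) : List ISym := n.bits.map fun b => if b then .b1 else .b0

/-- A fraction: sign, numerator, `/`, denominator, `;`. -/
def encFrac (z : ℤ) (d : ℕ) : List ISym :=
  (if z < 0 then [ISym.neg] else []) ++ encNat z.natAbs ++ [ISym.slash] ++ encNat d ++ [ISym.semi]

/-- The code of an instance: the coefficients, `|`, the initial values. -/
def Inst.enc (I : Inst) : List ISym :=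
  (List.ofFn fun i => encFrac (I.aNum i) (I.aDen i)).flatten ++ [ISym.bar] ++
    (List.ofFn fun i => encFrac (I.uNum i) (I.uDen i)).flatten

end Pool.Agent.UltPos
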