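import Mathlib
import Pool.Agent.PT.UF

/-! Evaluation of terms on subwords, and positions of letters. -/

set_option autoImplicit false

namespace Pool.Agent.UltPos

open Pool.Agent.PT

variable {Γ : Type}

/-- The subword of letters at positions `i ≤ j < i'`. -/
def sub (x : List Γ) (i i' : ℕ) : List Γ := (x.drop i).take (i' - i)

theorem sub_getElem? (x : List Γ) (i i' l : ℕ) :
    (sub x i i')[l]? = if i + l < i' then x[i + l]? else none := by
  unfold sub
  rw [List.getElem?_take]
  by_cases h : i + l < i'
  · rw [if_pos h, if_pos (by omega), List.getElem?_drop]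
  · rw [if_neg h, if_neg (by omega)]

theorem length_sub (x : List Γ) (i i' : ℕ) :
    (sub x i i').length = min i' x.length - i := by
  unfold sub
  rw [List.length_take, List.length_drop]
  omega

theorem sym_aux (x : List Γ) (a : Γ) (i i' v : ℕ)
    (inst : Decidable (i + v < i' ∧ x[i + v]? = some a))
    (inst' : Decidable ((sub x i i')[v]? = some a)) :
    @ite ℕ _ inst 1 0 = @ite ℕ _ inst' 1 0 := by
  have : (i + v < i' ∧ x[i + v]? = some a) ↔ (sub x i i')[v]? = some a := by
    rw [sub_getElem?]
    by_cases h : i + v < i'
    · simp [h]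
    · simp [h]
  by_cases h : (sub x i i')[v]? = some a
  · rw [if_pos h, if_pos (this.mpr h)]
  · rw [if_neg h, if_neg (fun h' => h (this.mp h'))]

/-- Terms evaluated on subwords. -/
theorem UF.rel_tm : ∀ (t : Tm Γ) (I J : List Γ → (ℕ → ℕ) → ℕ) (G : ℕ → List Γ → (ℕ → ℕ) → ℕ),
    UF I → UF J → (∀ i, UF (G i)) →
    UF (fun x e => t.eval (sub x (I x e) (J x e)) (fun i => G i x e))
  | .var i, _, _, G, _, _, hG => hG i
  | .const c, _, _, _, _, _, _ => UF.const c
  | .len, I, J, G, hI, hJ, hG => by
    refine ((UF.min hJ UF.len).sub hI).congr fun x e => ?_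
    simp only [Tm.eval, length_sub]
  | .sym a t, I, J, G, hI, hJ, hG => by
    have ht := UF.rel_tm t I J G hI hJ hG
    have h1 : UP (fun x e => I x e + t.eval (sub x (I x e) (J x e)) (fun i => G i x e) < J x e ∧
        x[I x e + t.eval (sub x (I x e) (J x e)) (fun i => G i x e)]? = some a) :=
      (UP.lt (hI.add ht) hJ).and (UP.sym a (hI.add ht))
    refine UF.congr h1 fun x e => ?_
    exact sym_aux x a (I x e) (J x e) _ _ _
  | .add s t, I, J, G, hI, hJ, hG => (UF.rel_tm s I J G hI hJ hG).add (UF.rel_tm t I J G hI hJ hG)
  | .sub s t, I, J, G, hI, hJ, hG => (UF.rel_tm s I J G hI hJ hG).sub (UF.rel_tm t I J G hI hJ hG)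
  | .sum b t, I, J, G, hI, hJ, hG => by
    have h := UF.rel_tm t (fun x e => I x (fun k => e (k + 1))) (fun x e => J x (fun k => e (k + 1)))
      (fun i x e => Nat.casesOn i (e 0) (fun j => G j x (fun k => e (k + 1))))
      (UF.ren (fun k => k + 1) hI) (UF.ren (fun k => k + 1) hJ)
      (fun i => by
        cases i with
        | zero => exact UF.var 0
        | succ j => exact UF.ren (fun k => k + 1) (hG j))
    refine (UF.sum' (UF.rel_tm b I J G hI hJ hG) h).congr fun x e => ?_
    simp only [Tm.eval]
    refine Finset.sum_congr rfl fun i _ => ?_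
    have : (fun i_1 : ℕ => (Nat.casesOn i_1 (cons i e 0) (fun j => G j x (fun k => cons i e (k + 1))) : ℕ)) =
        cons i (fun i => G i x e) := by
      funext j
      cases j <;> rfl
    rw [this]
    rfl
  | .lett s t, I, J, G, hI, hJ, hG => by
    have h := UF.rel_tm t I J (fun i x e => Nat.casesOn i
      (s.eval (sub x (I x e) (J x e)) (fun i => G i x e))
      (fun j => G j x e)) hI hJ (fun i => by
        cases i with
        | zero => exact UF.rel_tm s I J G hI hJ hG
        | succ j => exact hG j)
    refine h.congr fun x e => ?_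
    simp only [Tm.eval]
    congr 1
    funext j
    cases j <;> rfl
  | .ren σ t, I, J, G, hI, hJ, hG => UF.rel_tm t I J (fun i => G (σ i)) hI hJ (fun i => hG (σ i))

/-- Predicates on subwords. -/
theorem UP.rel {P : List Γ → Prop} (hP : UP (fun x _ => P x)) {I J : List Γ → (ℕ → ℕ) → ℕ}
    (hI : UF I) (hJ : UF J) : UP (fun x e => P (sub x (I x e) (J x e))) := by
  obtain ⟨t, ht⟩ := hP
  refine (UF.rel_tm t I J (fun _ _ _ => 0) hI hJ (fun _ => UF.const 0)).congr fun x e => ?_
  exact ht _ _

/-- Functions on subwords. -/
theorem UF.rel {f : List Γ → ℕ} (hf : UF (fun x _ => f x)) {I J : List Γ → (ℕ → ℕ) → ℕ}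
    (hI : UF I) (hJ : UF J) : UF (fun x e => f (sub x (I x e) (J x e))) := by
  obtain ⟨t, ht⟩ := hf
  refine (UF.rel_tm t I J (fun _ _ _ => 0) hI hJ (fun _ => UF.const 0)).congr fun x e => ?_
  exact ht _ _

section count

variable [DecidableEq Γ]

/-- The number of occurrences of `a` is given by a term. -/
theorem UF.count (a : Γ) : UF (fun (x : List Γ) _ => x.count a) := by
  classical
  have h1 : UF (fun (x : List Γ) (e : ℕ → ℕ) => if x[e 0]? = some a then 1 else 0) :=
    UF.congr (UP.sym a (UF.var 0)) fun x e => by split_ifs <;> rfl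
  refine (UF.sum (f := fun x _ i => if x[i]? = some a then 1 else 0) UF.len h1).congr fun x e => ?_
  induction x using List.reverseRecOn with
  | nil => simp
  | append_singleton l b ih =>
    rw [List.length_append, List.length_singleton, Finset.sum_range_succ, List.count_append,
      List.count_singleton]
    have h2 : ∑ i ∈ Finset.range l.length, (if (l ++ [b])[i]? = some a then 1 else 0) =
        ∑ i ∈ Finset.range l.length, (if l[i]? = some a then 1 else 0) := by
      refine Finset.sum_congr rfl fun i hi => ?_
      rw [Finset.mem_range] at hi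
      rw [List.getElem?_append_left hi]
    rw [h2, ih, List.getElem?_append_right le_rfl]
    simp

/-- The position of the `t`-th occurrence of `a`. -/
def posn (a : Γ) (t : ℕ) (x : List Γ) : ℕ :=
  ∑ j ∈ Finset.range x.length, if (sub x 0 (j + 1)).count a ≤ t then 1 else 0

theorem UF.posn (a : Γ) : UF (fun (x : List Γ) e => posn a (e 0) x) := by
  classical
  have h1 : UP (fun (x : List Γ) (e : ℕ → ℕ) => (sub x 0 (e 0 + 1)).count a ≤ e 1) :=
    UP.le (UF.rel (UF.count a) (UF.const 0) ((UF.var 0).add (UF.const 1))) (UF.var 1)
  refine (UF.sum (f := fun x e i => if (sub x 0 (i + 1)).count a ≤ e 0 then 1 else 0) UF.len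
    (UF.congr h1 fun x e => by split_ifs <;> rfl)).congr fun x e => ?_
  rfl

theorem posn_eq (a : Γ) (p s : List Γ) (t : ℕ) (hp : p.count a = t) :
    posn a t (p ++ a :: s) = p.length := by
  unfold posn
  rw [Finset.sum_boole]
  have : (Finset.range (p ++ a :: s).length).filter
      (fun j => (sub (p ++ a :: s) 0 (j + 1)).count a ≤ t) = Finset.range p.length := by
    ext j
    simp only [Finset.mem_filter, Finset.mem_range, List.length_append, List.length_cons]
    constructor
    · rintro ⟨h1, h2⟩
      by_contra hcon
      push Not at hcon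
      have : sub (p ++ a :: s) 0 (j + 1) = p ++ a :: (s.take (j - p.length)) := by
        unfold sub
        rw [List.drop_zero, Nat.sub_zero, List.take_append]
        rw [List.take_of_length_le (by omega)]
        congr 1
        obtain ⟨r, hr⟩ : ∃ r, j = p.length + r := ⟨j - p.length, by omega⟩
        subst hr
        have : p.length + r + 1 - p.length = r + 1 := by omega
        rw [this, List.take_succ_cons]
        congr 2
        omega
      rw [this, List.count_append, List.count_cons_self] at h2
      omega
    · intro h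
      refine ⟨by omega, ?_⟩
      have : sub (p ++ a :: s) 0 (j + 1) = p.take (j + 1) := by
        unfold sub
        rw [List.drop_zero, Nat.sub_zero, List.take_append_of_le_length (by omega)]
      rw [this, ← hp]
      exact (List.take_sublist _ _).count_le _
  rw [this]
  simp

end count

end Pool.Agent.UltPos
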