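import Pool.Agent.UltPos.Defs

/-! Tame sequences. -/

set_option autoImplicit false

namespace Pool.Agent.UltPos

open Filter Topology

/-- A real sequence `v` is *tame* if for some modulus `N`, along each residue class `Nm + J` there
is `ρ > 0` such that `v(Nm+J) / ρ^m` is bounded and `liminf v(Nm+J) / ρ^m` is not `0`. -/
def IsTame (v : ℕ → ℝ) : Prop :=
  ∃ N : ℕ, 0 < N ∧ ∀ J : ℕ, J < N → ∃ ρ : ℝ, 0 < ρ ∧
    (∃ B : ℝ, ∀ m : ℕ, |v (N * m + J)| ≤ B * ρ ^ m) ∧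
    liminf (fun m : ℕ => v (N * m + J) / ρ ^ m) atTop ≠ 0

/-- The sequence of the instance is tame. -/
def Inst.Tame (I : Inst) : Prop := ∃ v : ℕ → ℚ, I.IsSeq v ∧ IsTame (fun n => (v n : ℝ))

end Pool.Agent.UltPos
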