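import Pool.Agent.UltPos.Defs
import Pool.Agent.UltPos.Rel

/-! The set of codes of instances is a UP predicate. -/

set_option autoImplicit false

namespace Pool.Agent.UltPos

open Pool.Agent.PT ISym

section lists

variable {Γ : Type}

theorem split_at (x : List Γ) (p : ℕ) (a : Γ) (h : x[p]? = some a) :
    x = sub x 0 p ++ a :: sub x (p + 1) x.length := by
  have hp : p < x.length := (List.getElem?_eq_some_iff.mp h).1
  have ha : x[p] = a := (List.getElem?_eq_some_iff.mp h).2
  unfold sub
  rw [List.drop_zero, Nat.sub_zero, List.take_of_length_le (l := x.drop (p + 1)) (by simp), ← ha,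
    List.getElem_cons_drop, List.take_append_drop]

theorem sub_zero_append (p q : List Γ) (n : ℕ) (h : p.length = n) : sub (p ++ q) 0 n = p := by
  subst h; unfold sub; simp

theorem sub_append (p q r : List Γ) (n m : ℕ) (h : p.length = n) (h' : p.length + q.length = m) :
    sub (p ++ (q ++ r)) n m = q := by
  subst h; subst h'; unfold sub; simp

theorem first_occ [DecidableEq Γ] (a : Γ) : ∀ (w : List Γ), a ∈ w →
    ∃ q r, w = q ++ a :: r ∧ a ∉ q
  | [], h => by simp at h
  | b :: w, h => by
    by_cases hb : b = a
    · exact ⟨[], w, by simp [hb], by simp⟩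
    · have h' : a ∈ w := by
        rcases List.mem_cons.mp h with h1 | h1
        · exact absurd h1.symm hb
        · exact h1
      obtain ⟨q, r, h1, h2⟩ := first_occ a w h'
      refine ⟨b :: q, r, by rw [h1]; rfl, ?_⟩
      simp [h2, Ne.symm hb]

theorem append_cons_inj (a : Γ) : ∀ (q q' r r' : List Γ), a ∉ q → a ∉ q' →
    q ++ a :: r = q' ++ a :: r' → q = q' ∧ r = r'
  | [], [], r, r', _, _, h => by simpa using h
  | [], b :: q', r, r', _, h2, h => by
    simp only [List.nil_append, List.cons_append, List.cons.injEq] at h
    exact absurd (by simp [h.1] : a ∈ b :: q') h2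
  | b :: q, [], r, r', h1, _, h => by
    simp only [List.nil_append, List.cons_append, List.cons.injEq] at h
    exact absurd (by simp [h.1] : a ∈ b :: q) h1
  | b :: q, b' :: q', r, r', h1, h2, h => by
    simp only [List.cons_append, List.cons.injEq] at h
    obtain ⟨g1, g2⟩ := append_cons_inj a q q' r r' (fun h' => h1 (List.mem_cons_of_mem _ h'))
      (fun h' => h2 (List.mem_cons_of_mem _ h')) h.2
    exact ⟨by rw [h.1, g1], g2⟩

end lists

/-! ### Numbers -/

theorem encNat_zero : encNat 0 = [] := by simp [encNat]

theorem bits_ne_nil {n : ℕ} (h : n ≠ 0) : n.bits ≠ [] := by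
  intro h1
  rcases Nat.even_or_odd' n with ⟨m, h2 | h2⟩
  · rw [h2, Nat.bit0_bits m (by omega)] at h1
    simp at h1
  · rw [h2, Nat.bit1_bits m] at h1
    simp at h1

theorem exists_bits (L : List Bool) (h : L = [] ∨ L.getLast? = some true) :
    ∃ n : ℕ, n.bits = L := by
  induction L with
  | nil => exact ⟨0, Nat.zero_bits⟩
  | cons b L ih =>
    by_cases hL : L = []
    · subst hL
      have hb : b = true := by simpa using h
      exact ⟨1, by simp [hb]⟩
    · have h' : L.getLast? = some true := by
        rcases h with h | h
        · simp at h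
        · rwa [List.getLast?_cons_of_ne_nil hL] at h
      obtain ⟨n, hn⟩ := ih (Or.inr h')
      have hn0 : n ≠ 0 := by
        rintro rfl
        rw [Nat.zero_bits] at hn
        exact hL hn.symm
      refine ⟨Nat.bit b n, ?_⟩
      rw [Nat.bits_append_bit n b (fun h => absurd h hn0), hn]

theorem bits_last (n : ℕ) : n.bits = [] ∨ n.bits.getLast? = some true := by
  induction n using Nat.strong_induction_on with
  | _ n ih =>
    rcases Nat.even_or_odd' n with ⟨m, h | h⟩
    · rcases Nat.eq_zero_or_pos m with rfl | hm
      · left; simp [h]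
      · right
        rw [h, Nat.bit0_bits m hm.ne']
        rcases ih m (by omega) with h1 | h1
        · exfalso
          have := bits_ne_nil hm.ne'
          exact this h1
        · rw [List.getLast?_cons_of_ne_nil (bits_ne_nil hm.ne')]
          exact h1
    · right
      rw [h, Nat.bit1_bits m]
      rcases Nat.eq_zero_or_pos m with rfl | hm
      · simp
      · rcases ih m (by omega) with h1 | h1
        · exact absurd h1 (bits_ne_nil hm.ne')
        · rw [List.getLast?_cons_of_ne_nil (bits_ne_nil hm.ne')]
          exact h1

/-- Codes of natural numbers. -/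
def IsNat (w : List ISym) : Prop := ∃ n : ℕ, w = encNat n

theorem isNat_iff (w : List ISym) : IsNat w ↔
    (∀ l, l < w.length → w[l]? = some b0 ∨ w[l]? = some b1) ∧
      (w.length = 0 ∨ w[w.length - 1]? = some b1) := by
  constructor
  · rintro ⟨n, rfl⟩
    constructor
    · intro l hl
      have hl' : l < n.bits.length := by simpa [encNat] using hl
      unfold encNat
      rw [List.getElem?_map, List.getElem?_eq_getElem hl']
      cases n.bits[l] <;> simp
    · rcases bits_last n with h | h
      · left; simp [encNat, h]
      · right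
        rw [← List.getLast?_eq_getElem?, encNat, List.getLast?_map, h]
        rfl
  · rintro ⟨h1, h2⟩
    have h3 : w = (w.map (fun s => decide (s = b1))).map (fun b => if b then b1 else b0) := by
      rw [List.map_map]
      symm
      conv_rhs => rw [← List.map_id w]
      apply List.map_congr_left
      intro s hs
      obtain ⟨l, hl, rfl⟩ := List.getElem_of_mem hs
      have := h1 l hl
      rw [List.getElem?_eq_getElem hl] at this
      simp only [Option.some.injEq] at this
      rcases this with h | h <;> simp [h]
    obtain ⟨n, hn⟩ := exists_bits (w.map (fun s => decide (s = b1))) (by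
      rcases h2 with h | h
      · left
        rw [List.length_eq_zero_iff] at h
        simp [h]
      · right
        rw [← List.getLast?_eq_getElem?] at h
        rw [List.getLast?_map, h]
        simp)
    refine ⟨n, ?_⟩
    rw [encNat, hn]
    exact h3

theorem up_isNat : UP (fun w _ => IsNat w) := by
  have h1 : UP (fun (w : List ISym) (e : ℕ → ℕ) => w[e 0]? = some b0 ∨ w[e 0]? = some b1) :=
    (UP.sym b0 (UF.var 0)).or (UP.sym b1 (UF.var 0))
  refine ((UP.ball (P := fun w _ l => w[l]? = some b0 ∨ w[l]? = some b1) UF.len h1).and
    ((UP.eq UF.len (UF.const 0)).or (UP.sym b1 (UF.len.sub (UF.const 1))))).congr fun w _ => ?_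
  exact (isNat_iff w).symm

/-- Codes of integers. -/
def IsInt (w : List ISym) : Prop :=
  ∃ z : ℤ, w = (if z < 0 then [ISym.neg] else []) ++ encNat z.natAbs

theorem isInt_iff (w : List ISym) : IsInt w ↔
    IsNat w ∨ (w[0]? = some neg ∧ 1 < w.length ∧ IsNat (sub w 1 w.length)) := by
  constructor
  · rintro ⟨z, rfl⟩
    by_cases hz : z < 0
    · right
      rw [if_pos hz]
      refine ⟨by simp, ?_, ?_⟩
      · have : encNat z.natAbs ≠ [] := by
          unfold encNat
          simp only [ne_eq, List.map_eq_nil_iff]
          exact bits_ne_nil (by omega)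
        have := List.length_pos_iff.mpr this
        simp only [List.length_append, List.length_singleton]
        omega
      · refine ⟨z.natAbs, ?_⟩
        unfold sub
        simp
    · left
      rw [if_neg hz]
      exact ⟨z.natAbs, rfl⟩
  · rintro (⟨n, rfl⟩ | ⟨h1, h2, n, h3⟩)
    · exact ⟨n, by simp⟩
    · refine ⟨-n, ?_⟩
      have h4 := split_at w 0 neg h1
      rw [zero_add, h3] at h4
      have h5 : sub w 0 0 = [] := by unfold sub; simp
      rw [h5] at h4
      have hn : n ≠ 0 := by
        rintro rfl
        rw [encNat_zero] at h4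
        rw [h4] at h2
        simp at h2
      rw [if_pos (by omega)]
      simpa using h4

theorem up_isInt : UP (fun w _ => IsInt w) := by
  refine (up_isNat.or ((UP.sym neg (UF.const 0)).and ((UP.lt (UF.const 1) UF.len).and
    (UP.rel up_isNat (UF.const 1) UF.len)))).congr fun w _ => ?_
  exact (isInt_iff w).symm

/-- Codes of fractions. -/
def IsFrac (w : List ISym) : Prop := ∃ (z : ℤ) (d : ℕ), 0 < d ∧ w = encFrac z d

theorem isFrac_iff (w : List ISym) : IsFrac w ↔
    w[w.length - 1]? = some semi ∧ ∃ p, p < w.length ∧ (w[p]? = some slash ∧ p + 1 < w.length - 1 ∧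
      IsInt (sub w 0 p) ∧ IsNat (sub w (p + 1) (w.length - 1))) := by
  constructor
  · rintro ⟨z, d, hd, rfl⟩
    set A := (if z < 0 then [ISym.neg] else []) ++ encNat z.natAbs with hA
    have he : encFrac z d = A ++ (slash :: (encNat d ++ [semi])) := by
      unfold encFrac
      rw [← hA]
      simp
    have hdl : 0 < (encNat d).length := by
      rw [List.length_pos_iff]
      unfold encNat
      simp only [ne_eq, List.map_eq_nil_iff]
      exact bits_ne_nil (by omega)
    rw [he]
    refine ⟨by
      rw [← List.getLast?_eq_getElem?]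
      have : A ++ slash :: (encNat d ++ [semi]) = (A ++ slash :: encNat d) ++ [semi] := by simp
      rw [this, List.getLast?_concat], A.length, by simp, by simp, by simp; omega,
      ⟨z, ?_⟩, ⟨d, ?_⟩⟩
    · rw [sub_zero_append _ _ _ rfl]
    · have : A ++ (slash :: (encNat d ++ [semi])) = (A ++ [slash]) ++ (encNat d ++ [semi]) := by
        simp
      rw [this]
      apply sub_append
      · simp
      · simp; omega
  · rintro ⟨h1, p, hp, h2, h3, ⟨z, hz⟩, d, hd⟩
    refine ⟨z, d, ?_, ?_⟩
    · by_contra hd0
      have : d = 0 := by omega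
      rw [this, encNat_zero] at hd
      have := congrArg List.length hd
      rw [length_sub] at this
      simp only [List.length_nil] at this
      omega
    · have h4 := split_at w p slash h2
      have h5 : sub w (p + 1) w.length = sub w (p + 1) (w.length - 1) ++ [semi] := by
        have h6 : (sub w (p + 1) w.length)[w.length - 1 - (p + 1)]? = some semi := by
          rw [sub_getElem?, if_pos (by omega)]
          rw [← h1]
          congr 1
          omega
        have h7 := split_at _ _ _ h6
        rw [h7]
        congr 1
        · unfold sub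
          simp only [List.drop_zero, Nat.sub_zero]
          rw [List.take_take]
          congr 1
          omega
        · congr 1
          rw [← List.length_eq_zero_iff, length_sub, length_sub]
          omega
      rw [h5, hd, hz] at h4
      rw [h4, encFrac]
      simp

theorem up_isFrac : UP (fun w _ => IsFrac w) := by
  have hl1 : UF (fun (w : List ISym) (_ : ℕ → ℕ) => w.length - 1) := UF.len.sub (UF.const 1)
  have h1 : UP (fun (w : List ISym) (e : ℕ → ℕ) => w[e 0]? = some slash ∧ e 0 + 1 < w.length - 1 ∧
      IsInt (sub w 0 (e 0)) ∧ IsNat (sub w (e 0 + 1) (w.length - 1))) :=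
    (UP.sym slash (UF.var 0)).and ((UP.lt ((UF.var 0).add (UF.const 1)) hl1).and
      ((UP.rel up_isInt (UF.const 0) (UF.var 0)).and
        (UP.rel up_isNat ((UF.var 0).add (UF.const 1)) hl1)))
  refine ((UP.sym semi hl1).and (UP.bex (P := fun w _ p => w[p]? = some slash ∧
      p + 1 < w.length - 1 ∧ IsInt (sub w 0 p) ∧ IsNat (sub w (p + 1) (w.length - 1)))
      UF.len h1)).congr fun w _ => ?_
  exact (isFrac_iff w).symm

/-! ### Sequences of fractions -/

theorem semi_notMem_frac (z : ℤ) (d : ℕ) : semi ∉
    (if z < 0 then [ISym.neg] else []) ++ encNat z.natAbs ++ [ISym.slash] ++ encNat d := by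
  have h : ∀ n : ℕ, semi ∉ encNat n := by
    intro n h
    unfold encNat at h
    rw [List.mem_map] at h
    obtain ⟨b, _, hb⟩ := h
    cases b <;> simp at hb
  simp only [List.mem_append, not_or]
  refine ⟨⟨⟨?_, h _⟩, by simp⟩, h _⟩
  split_ifs <;> simp

/-- Codes of sequences of fractions. -/
def encFracs (L : List (ℤ × ℕ)) : List ISym := (L.map fun q => encFrac q.1 q.2).flatten

/-- Codes of sequences of fractions. -/
def IsFracs (w : List ISym) : Prop :=
  ∃ L : List (ℤ × ℕ), (∀ q ∈ L, 0 < q.2) ∧ w = encFracs L

theorem isFracs_of (n : ℕ) : ∀ w : List ISym, w.length ≤ n → (w = [] ∨ w.getLast? = some semi) →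
    (∀ p q r, w = p ++ (q ++ semi :: r) → (p = [] ∨ p.getLast? = some semi) → semi ∉ q →
      IsFrac (q ++ [semi])) → IsFracs w := by
  induction n with
  | zero =>
    intro w hw _ _
    have : w = [] := List.length_eq_zero_iff.mp (by omega)
    exact ⟨[], by simp, by simp [this, encFracs]⟩
  | succ n ih =>
    intro w hw hlast hP
    by_cases hw0 : w = []
    · exact ⟨[], by simp, by simp [hw0, encFracs]⟩
    have hlast' : w.getLast? = some semi := hlast.resolve_left hw0
    have hmem : semi ∈ w := List.mem_of_getLast? hlast'
    obtain ⟨q, r, h1, h2⟩ := first_occ semi w hmem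
    obtain ⟨z, d, hd, hq⟩ := hP [] q r (by simpa using h1) (Or.inl rfl) h2
    obtain ⟨L, hL1, hL2⟩ := ih r (by
        have := congrArg List.length h1
        simp only [List.length_append, List.length_cons] at this
        omega) (by
        by_cases hr : r = []
        · exact Or.inl hr
        · right
          rw [h1, List.getLast?_append_of_ne_nil _ (by simp),
            List.getLast?_cons_of_ne_nil hr] at hlast'
          exact hlast') (by
        intro p' q' r' h3 h4 h5
        refine hP (q ++ semi :: p') q' r' (by rw [h1, h3]; simp) (Or.inr ?_) h5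
        rw [List.getLast?_append_of_ne_nil _ (by simp)]
        rcases h4 with h4 | h4
        · rw [h4]; rfl
        · rw [List.getLast?_cons_of_ne_nil (by rintro rfl; simp at h4)]
          exact h4)
    refine ⟨(z, d) :: L, ?_, ?_⟩
    · intro x hx
      rcases List.mem_cons.mp hx with h | h
      · rw [h]; exact hd
      · exact hL1 x h
    · rw [h1]
      unfold encFracs at hL2 ⊢
      rw [List.map_cons, List.flatten_cons, ← hL2, ← hq]
      simp

theorem isFracs_imp : ∀ (L : List (ℤ × ℕ)), (∀ q ∈ L, 0 < q.2) →
    ((encFracs L = [] ∨ (encFracs L).getLast? = some semi) ∧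
    (∀ p q r, encFracs L = p ++ (q ++ semi :: r) → (p = [] ∨ p.getLast? = some semi) → semi ∉ q →
      IsFrac (q ++ [semi])))
  | [], _ => by
    refine ⟨Or.inl rfl, ?_⟩
    intro p q r h _ _
    exfalso
    have := congrArg List.length h
    simp [encFracs] at this
  | (z, d) :: L, hL => by
    obtain ⟨ih1, ih2⟩ := isFracs_imp L (fun q hq => hL q (List.mem_cons_of_mem _ hq))
    set F := (if z < 0 then [ISym.neg] else []) ++ encNat z.natAbs ++ [ISym.slash] ++ encNat d
      with hF
    have hFs : semi ∉ F := semi_notMem_frac z d
    have he : encFracs ((z, d) :: L) = F ++ semi :: encFracs L := by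
      unfold encFracs
      rw [List.map_cons, List.flatten_cons]
      simp [encFrac, hF]
    have hfrac : IsFrac (F ++ [semi]) := ⟨z, d, hL (z, d) (by simp), rfl⟩
    rw [he]
    constructor
    · right
      rw [List.getLast?_append_of_ne_nil _ (by simp)]
      rcases ih1 with h | h
      · rw [h]; rfl
      · rw [List.getLast?_cons_of_ne_nil (by intro h0; rw [h0] at h; simp at h)]
        exact h
    · intro p q r h1 h2 h3
      by_cases hp : p = []
      · subst hp
        rw [List.nil_append] at h1
        obtain ⟨h4, _⟩ := append_cons_inj semi _ _ _ _ hFs h3 h1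
        rw [← h4]
        exact hfrac
      · have h2' : p.getLast? = some semi := h2.resolve_left hp
        obtain ⟨q', r', h4, h5⟩ := first_occ semi p (List.mem_of_getLast? h2')
        rw [h4] at h1
        have h6 : F ++ semi :: encFracs L = q' ++ semi :: (r' ++ (q ++ semi :: r)) := by
          rw [h1]; simp
        obtain ⟨h7, h8⟩ := append_cons_inj semi _ _ _ _ hFs h5 h6
        refine ih2 r' q r h8 ?_ h3
        by_cases hr : r' = []
        · exact Or.inl hr
        · right
          rw [h4, List.getLast?_append_of_ne_nil _ (by simp),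
            List.getLast?_cons_of_ne_nil hr] at h2'
          exact h2'

theorem isFracs_iff (w : List ISym) : IsFracs w ↔
    (w.length = 0 ∨ w[w.length - 1]? = some semi) ∧
    ∀ k, k < w.length → (w[k]? = some semi → ∀ i, i < k + 1 → ((i = 0 ∨ w[i - 1]? = some semi) →
      (∀ j, j < k → (i ≤ j → ¬ w[j]? = some semi)) → IsFrac (sub w i (k + 1)))) := by
  have key : (w = [] ∨ w.getLast? = some semi) ↔
      (w.length = 0 ∨ w[w.length - 1]? = some semi) := by
    rw [List.length_eq_zero_iff, List.getLast?_eq_getElem?]
  have key2 : (∀ p q r, w = p ++ (q ++ semi :: r) → (p = [] ∨ p.getLast? = some semi) → semi ∉ q →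
      IsFrac (q ++ [semi])) ↔
      ∀ k, k < w.length → (w[k]? = some semi → ∀ i, i < k + 1 → ((i = 0 ∨ w[i - 1]? = some semi) →
      (∀ j, j < k → (i ≤ j → ¬ w[j]? = some semi)) → IsFrac (sub w i (k + 1)))) := by
    constructor
    · intro h k hk hks i hi hi0 hj
      have h1 := split_at w k semi hks
      have h2 : sub w 0 k = sub w 0 i ++ sub w i k := by
        unfold sub
        rw [List.drop_zero, Nat.sub_zero, Nat.sub_zero]
        have : k = i + (k - i) := by omega
        conv_lhs => rw [this, List.take_add]
      have h3 : sub w i (k + 1) = sub w i k ++ [semi] := by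
        unfold sub
        have : k + 1 - i = (k - i) + 1 := by omega
        rw [this, List.take_add_one, List.getElem?_drop]
        have : i + (k - i) = k := by omega
        rw [this, hks]
        rfl
      rw [h3]
      refine h (sub w 0 i) (sub w i k) (sub w (k + 1) w.length) ?_ ?_ ?_
      · rw [← List.append_assoc, ← h2]
        exact h1
      · rcases hi0 with h0 | h0
        · left; subst h0; unfold sub; simp
        · by_cases hii : i = 0
          · left; subst hii; unfold sub; simp
          · right
            rw [List.getLast?_eq_getElem?, sub_getElem?, length_sub]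
            have : min i w.length - 0 - 1 = i - 1 := by omega
            rw [this, if_pos (by omega), zero_add]
            exact h0
      · intro hmem
        obtain ⟨l, hl⟩ := List.mem_iff_getElem?.mp hmem
        rw [sub_getElem?] at hl
        split_ifs at hl with hlt
        exact hj (i + l) (by omega) (by omega) hl
    · intro h p q r hw hp hq
      have h1 := h (p.length + q.length) (by rw [hw]; simp) (by
        rw [hw, ← List.append_assoc, List.getElem?_append_right (by simp)]
        simp) p.length (by omega) (by
        rcases hp with hp | hp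
        · left; simp [hp]
        · right
          have hp0 : p ≠ [] := by rintro rfl; simp at hp
          have := List.length_pos_iff.mpr hp0
          rw [hw, List.getElem?_append_left (by omega), ← List.getLast?_eq_getElem?]
          exact hp) (by
        intro j hj hij hs
        apply hq
        rw [hw, List.getElem?_append_right hij, List.getElem?_append_left (by omega)] at hs
        exact List.mem_of_getElem? hs)
      have h2 : sub w p.length (p.length + q.length + 1) = q ++ [semi] := by
        rw [hw]
        have : q ++ semi :: r = (q ++ [semi]) ++ r := by simp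
        rw [this]
        apply sub_append
        · rfl
        · simp; omega
      rwa [h2] at h1
  rw [← key, ← key2]
  constructor
  · rintro ⟨L, hL, rfl⟩
    exact isFracs_imp L hL
  · rintro ⟨h1, h2⟩
    exact isFracs_of w.length w le_rfl h1 h2

theorem up_isFracs : UP (fun w _ => IsFracs w) := by
  have e0 := UF.var (Γ := ISym) 0
  have e1 := UF.var (Γ := ISym) 1
  have e2 := UF.var (Γ := ISym) 2
  have h3 : UP (fun (w : List ISym) (e : ℕ → ℕ) => ∀ j, j < e 1 → (e 0 ≤ j → ¬ w[j]? = some semi)) :=
    UP.ball (P := fun w e j => e 0 ≤ j → ¬ w[j]? = some semi) e1 ((UP.le e1 e0).imp (UP.sym semi e0).not)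
  have h2 : UP (fun (w : List ISym) (e : ℕ → ℕ) => (e 0 = 0 ∨ w[e 0 - 1]? = some semi) →
      (∀ j, j < e 1 → (e 0 ≤ j → ¬ w[j]? = some semi)) → IsFrac (sub w (e 0) (e 1 + 1))) :=
    ((UP.eq e0 (UF.const 0)).or (UP.sym semi (e0.sub (UF.const 1)))).imp
      (h3.imp (UP.rel up_isFrac e0 (e1.add (UF.const 1))))
  have h1 : UP (fun (w : List ISym) (e : ℕ → ℕ) => w[e 0]? = some semi → ∀ i, i < e 0 + 1 →
      ((i = 0 ∨ w[i - 1]? = some semi) →
      (∀ j, j < e 0 → (i ≤ j → ¬ w[j]? = some semi)) → IsFrac (sub w i (e 0 + 1)))) :=
    (UP.sym semi e0).imp (UP.ball (P := fun w e i => (i = 0 ∨ w[i - 1]? = some semi) →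
      (∀ j, j < e 0 → (i ≤ j → ¬ w[j]? = some semi)) → IsFrac (sub w i (e 0 + 1)))
      (e0.add (UF.const 1)) h2)
  refine (((UP.eq UF.len (UF.const 0)).or (UP.sym semi (UF.len.sub (UF.const 1)))).and
    (UP.ball (P := fun w _ k => w[k]? = some semi → ∀ i, i < k + 1 →
      ((i = 0 ∨ w[i - 1]? = some semi) →
      (∀ j, j < k → (i ≤ j → ¬ w[j]? = some semi)) → IsFrac (sub w i (k + 1)))) UF.len h1)).congr
    fun w _ => ?_
  exact (isFracs_iff w).symm

end Pool.Agent.UltPos
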